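import Mathlib
import Pool.Agent.H28.LimSol

set_option autoImplicit false

open scoped Topology
open Filter
open Pool.Agent.H28.LimSol

namespace Pool.Agent.Results.MP_efe010_an.Strip

/-- Solutions with nonnegative initial values; `x j` stands for `x_{j-2}`. -/
def IsSol (α A : ℝ) (x : ℕ → ℝ) : Prop :=
  0 ≤ x 0 ∧ 0 ≤ x 1 ∧ 0 ≤ x 2 ∧ ∀ n, x (n + 3) = (α + x n) / (A + x (n + 2))

/-- The equilibrium. -/
noncomputable def xbar (α A : ℝ) : ℝ := (1 - A + √((1 - A) ^ 2 + 4 * α)) / 2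

/-- The upper parameter bound. -/
noncomputable def αplus (A : ℝ) : ℝ := (2 - A + √(5 * A ^ 2 - 4 * A ^ 3)) / 2

noncomputable def g (A a b c : ℝ) : ℝ := A + 1 / (A / a + b / (A * a + c))

lemma g_mono {A a b c a' b' c' : ℝ} (hA : 0 < A) (ha : 0 < a) (hb : 0 < b') (hc : 0 < c)
    (h1 : a ≤ a') (h2 : b' ≤ b) (h3 : c ≤ c') : g A a b c ≤ g A a' b' c' := by
  unfold g
  have : 0 < a' := by linarith
  have : 0 < c' := by linarith
  gcongr
  linarith

lemma g_eq {A a b c : ℝ} (hA : 0 < A) (ha : 0 < a) (hb : 0 < b) (hc : 0 < c) :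
    A + a / (A + b / (A + c / a)) = g A a b c := by
  unfold g
  field_simp

lemma g_diag {A a b : ℝ} (hA : 0 < A) (ha : 0 < a) (hb : 0 < b) :
    (g A a b a - A) * (A ^ 2 + A + b) = (A + 1) * a := by
  unfold g
  field_simp
  ring

lemma conv {A : ℝ} (hA : 0 < A) (h1 : 1 < A ^ 2 + A) (u : ℕ → ℝ) (h0 : ∀ n, A ≤ u n)
    (hr : ∀ n, u (n + 3) = A + u n / u (n + 2)) : Tendsto u atTop (𝓝 (A + 1)) := by
  have hp : ∀ n, 0 < u n := fun n => hA.trans_le (h0 n)
  set M := u 0 + u 1 + u 2 + u 3 + u 4 + A * (A ^ 2 + 2 * A) / (A ^ 2 + A - 1) with hM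
  have q0 : 0 < A * (A ^ 2 + 2 * A) / (A ^ 2 + A - 1) := div_pos (by positivity) (by linarith)
  have q1 : A * (A ^ 2 + 2 * A) ≤ M * (A ^ 2 + A - 1) := by
    rw [← div_le_iff₀ (by linarith)]
    linarith [hp 0, hp 1, hp 2, hp 3, hp 4]
  have M0 : 0 < M := by linarith [hp 0, hp 1, hp 2, hp 3, hp 4]
  have hb : ∀ n, u n ≤ M := by
    intro n
    induction n using Nat.strong_induction_on with
    | _ n ih =>
      by_cases hn : n < 5
      · interval_cases n <;> linarith [hp 0, hp 1, hp 2, hp 3, hp 4]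
      · obtain ⟨m, rfl⟩ : ∃ m, n = m + 5 := ⟨n - 5, by omega⟩
        have e : u (m + 5) = g A (u (m + 2)) (u (m + 1)) (u m) := by
          rw [← g_eq hA (hp _) (hp _) (hp _), ← hr m, ← hr (m + 1), ← hr (m + 2)]
        have a1 := g_mono hA (hp (m + 2)) hA (hp m) (ih (m + 2) (by omega)) (h0 (m + 1))
          (ih m (by omega))
        have a2 := g_diag hA M0 hA
        have a3 : g A M A M ≤ M := by
          by_contra hc
          push Not at hc
          have : (M - A) * (A ^ 2 + A + A) < (g A M A M - A) * (A ^ 2 + A + A) :=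
            mul_lt_mul_of_pos_right (by linarith) (by positivity)
          nlinarith
        linarith
  have hI : A ≤ liminf u atTop :=
    le_liminf_of_le (bddU u M hb).isCoboundedUnder_ge (Eventually.of_forall h0)
  set I := liminf u atTop
  set S := limsup u atTop
  have zrec : ∀ (U : Ultrafilter ℕ) (z : ℤ → ℝ), (U : Filter ℕ) ≤ atTop →
      (∀ s : ℤ, Tendsto (fun n : ℕ => u ((n : ℤ) + s).toNat) U (𝓝 (z s))) →
      (∀ s, I ≤ z s ∧ z s ≤ S) → z 0 = A + z (-3) / z (-1) ∧ z 0 = g A (z (-3)) (z (-4)) (z (-5)) := by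
    intro U z hU hz hl
    have zp : ∀ s, 0 < z s := fun s => hA.trans_le (hI.trans (hl s).1)
    have r : ∀ s, z s = A + z (s - 3) / z (s - 1) := by
      intro s
      refine tendsto_nhds_unique (hz s) ((((hz (s - 3)).div (hz (s - 1)) (zp _).ne').const_add
        A).congr' ?_)
      filter_upwards [hU (eventually_ge_atTop (s.natAbs + 3))] with n hn
      obtain ⟨m, hm⟩ : ∃ m : ℕ, (n : ℤ) + s = m + 3 := ⟨((n : ℤ) + s - 3).toNat, by omega⟩
      simp only [Pi.div_apply]
      rw [show ((n : ℤ) + s).toNat = m + 3 by omega, show ((n : ℤ) + (s - 3)).toNat = m by omega,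
        show ((n : ℤ) + (s - 1)).toNat = m + 2 by omega, hr]
    have r0 := r 0
    have r1 := r (-1)
    have r2 := r (-2)
    norm_num at r0 r1 r2
    refine ⟨r0, ?_⟩
    rw [← g_eq hA (zp _) (zp _) (zp _), ← r2, ← r1, ← r0]
  obtain ⟨U, z, hU, z0, hz, hl⟩ := limsol_sup u A M h0 hb
  obtain ⟨V, w, hV, w0, hw, hk⟩ := limsol_inf u A M h0 hb
  obtain ⟨s1, s2⟩ := zrec U z hU hz hl
  obtain ⟨-, t2⟩ := zrec V w hV hw hk
  have I0 : 0 < I := hA.trans_le hI
  have IS : I ≤ S := (hl 0).1.trans (hl 0).2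
  have S0 : 0 < S := by linarith
  have b1 : S ≤ g A S I S := by
    refine (z0.symm.trans s2).le.trans (g_mono hA ?_ I0 ?_ (hl _).2 (hl _).1 (hl _).2)
    · exact I0.trans_le (hl _).1
    · exact I0.trans_le (hl _).1
  have b2 : g A I S I ≤ I := by
    refine (g_mono hA I0 ?_ I0 (hk _).1 (hk _).2 (hk _).1).trans (w0.symm.trans t2).ge
    exact I0.trans_le (hk _).1
  have c1 := g_diag hA S0 I0
  have c2 := g_diag hA I0 S0
  have d1 : (S - A) * (A ^ 2 + A + I) ≤ (A + 1) * S := by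
    rw [← c1]
    exact mul_le_mul_of_nonneg_right (by linarith) (by positivity)
  have d2 : (A + 1) * I ≤ (I - A) * (A ^ 2 + A + S) := by
    rw [← c2]
    exact mul_le_mul_of_nonneg_right (by linarith) (by positivity)
  have SI : S ≤ I := by
    by_contra hc
    push Not at hc
    nlinarith [mul_pos (sub_pos.2 hc) (sub_pos.2 h1)]
  have zz : ∀ s, z s = S := fun s => le_antisymm (hl s).2 (SI.trans (hl s).1)
  rw [zz, zz, zz, div_self S0.ne'] at s1
  exact tendsto_of_le_liminf_of_limsup_le (s1 ▸ SI) s1.le (bddU u M hb) (bddL u A h0)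

lemma main {A : ℝ} (hA : 0 < A) (h1 : 1 < A ^ 2 + A) (x : ℕ → ℝ) (hx : IsSol A A x) :
    Tendsto x atTop (𝓝 (xbar A A)) := by
  obtain ⟨x0, x1, x2, hr⟩ := hx
  have h0 : ∀ n, 0 ≤ x n := by
    intro n
    induction n using Nat.strong_induction_on with
    | _ n ih =>
      by_cases hn : n < 3
      · interval_cases n <;> assumption
      · obtain ⟨m, rfl⟩ : ∃ m, n = m + 3 := ⟨n - 3, by omega⟩
        have := ih m (by omega)
        have := ih (m + 2) (by omega)
        rw [hr]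
        positivity
  have := (conv hA h1 (fun n => A + x n) (fun n => by linarith [h0 n])
    (fun n => by simp only [hr])).sub_const A
  simp only [add_sub_cancel_left] at this
  have e : xbar A A = 1 := by
    unfold xbar
    rw [show (1 - A) ^ 2 + 4 * A = (1 + A) ^ 2 by ring, Real.sqrt_sq (by linarith)]
    ring
  rwa [e]

lemma lt_plus {A : ℝ} (hA : 0 < A) (h2 : A < 1) : A < αplus A := by
  unfold αplus
  have : A < √(5 * A ^ 2 - 4 * A ^ 3) := by
    apply Real.lt_sqrt_of_sq_lt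
    nlinarith [mul_pos (mul_pos hA hA) (sub_pos.2 h2)]
  linarith

theorem result :
    (∃ A α : ℝ, 0 < A ∧ A < 1 ∧ 0 < α ∧ α < αplus A ∧
      ∀ x, IsSol α A x → Tendsto x atTop (𝓝 (xbar α A))) ∧
    ∀ A : ℝ, (√5 - 1) / 2 < A → A < 1 →
      A < αplus A ∧ ∀ x, IsSol A A x → Tendsto x atTop (𝓝 (xbar A A)) := by
  refine ⟨⟨3 / 4, 3 / 4, by norm_num, by norm_num, by norm_num, lt_plus (by norm_num) (by norm_num),
    fun x hx => main (by norm_num) (by norm_num) x hx⟩, fun A h1 h2 => ?_⟩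
  have s2 : 2 < √5 := Real.lt_sqrt_of_sq_lt (by norm_num)
  have s5 : √5 ^ 2 = 5 := Real.sq_sqrt (by norm_num)
  have hA : 0 < A := by linarith
  exact ⟨lt_plus hA h2, main hA (by nlinarith)⟩

end Pool.Agent.Results.MP_efe010_an.Strip
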